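import Pool.Agent.E8helper19.LC.Stm

/-! LC8: the limit of the kernel `D`. -/

set_option autoImplicit false
open MeasureTheory Filter Topology Set

namespace Pool.Agent.E8helper25.LC

open Pool.Agent.E8helper19.LC

noncomputable section

theorem scal (F : ℝ → ℝ) (j : ℕ) {b : ℝ} (hb : 0 < b)
    (hF : IntegrableOn (fun x => x ^ j * F x) (Ioi 0)) :
    IntegrableOn (fun r => r ^ j * F (b * r)) (Ioi 0) ∧
    ∫ r in Ioi (0:ℝ), r ^ j * F (b * r) = b⁻¹ ^ (j + 1) * ∫ x in Ioi (0:ℝ), x ^ j * F x := by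
  have e : (fun r => r ^ j * F (b * r)) =
      fun r => b⁻¹ ^ j * ((fun x => x ^ j * F x) (b * r)) := by
    funext r
    have : b⁻¹ ^ j * b ^ j = 1 := by rw [← mul_pow, inv_mul_cancel₀ hb.ne', one_pow]
    simp only [mul_pow]
    linear_combination (-(r ^ j * F (b * r))) * this
  rw [e]
  constructor
  · have := (integrableOn_Ioi_comp_mul_left_iff (fun x => x ^ j * F x) 0 hb).2
      (by simpa using hF)
    exact this.const_mul (b⁻¹ ^ j)
  · rw [integral_const_mul, integral_comp_mul_left_Ioi (fun x => x ^ j * F x) 0 hb]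
    simp only [mul_zero, smul_eq_mul]
    ring

theorem absint (f : ℝ → ℝ) (hf : IntegrableOn f (Ioi 0)) : Integrable (fun t : ℝ => f |t|) := by
  have h1 : IntegrableOn (fun t : ℝ => f |t|) (Ioi 0) := by
    refine hf.congr_fun (fun t ht => ?_) measurableSet_Ioi
    simp only [mem_Ioi] at ht
    rw [abs_of_pos ht]
  have h2 : IntegrableOn (fun t : ℝ => f |t|) (Iic 0) := by
    rw [integrableOn_Iic_iff_integrableOn_Iio]
    have h3 : IntegrableOn (fun t : ℝ => f (-t)) (Iio 0) := by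
      have := (Measure.measurePreserving_neg (volume : Measure ℝ)).integrableOn_comp_preimage
        (MeasurableEquiv.neg ℝ).measurableEmbedding (f := f) (s := Ioi 0)
      have h4 := this.2 hf
      have e : (Neg.neg ⁻¹' Ioi (0:ℝ) : Set ℝ) = Iio 0 := by ext x; simp
      rw [e] at h4
      exact h4
    refine h3.congr_fun (fun t ht => ?_) measurableSet_Iio
    simp only [mem_Iio] at ht
    rw [abs_of_neg ht]
  rw [← integrableOn_univ, ← Iic_union_Ioi (a := (0:ℝ))]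
  exact h2.union h1

theorem line (F : ℝ → ℝ) (j : ℕ) {b : ℝ} (hb : 0 < b) (s : ℝ)
    (hF : IntegrableOn (fun x => x ^ j * F x) (Ioi 0)) :
    Integrable (fun t : ℝ => |t - s| ^ j * F (b * |t - s|)) ∧
    ∫ t : ℝ, |t - s| ^ j * F (b * |t - s|) =
      2 * (b⁻¹ ^ (j + 1) * ∫ x in Ioi (0:ℝ), x ^ j * F x) := by
  obtain ⟨h1, h2⟩ := scal F j hb hF
  constructor
  · exact (absint (fun r => r ^ j * F (b * r)) h1).comp_sub_right s
  · rw [integral_sub_right_eq_self (fun t : ℝ => |t| ^ j * F (b * |t|)) s,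
      integral_comp_abs (f := fun r => r ^ j * F (b * r)), h2]

/-- measurability of the kernel -/
theorem Dk_meas (h3 : S_G) {γ : ℝ → P} {L c : ℝ} (hγ : Crv γ L) (hc : 0 < c)
    (hch : ∀ s t, c * |s - t| ≤ ‖γ s - γ t‖) (α k s : ℝ) (hmu : 0 < mu α k) :
    AEStronglyMeasurable (fun t => Dk α k γ t s) volume := by
  have hG := h3.2.1 (mu α k) hmu
  have hcont : Continuous γ := hγ.smooth.continuous
  have hs : ContinuousOn (fun t => Dk α k γ t s) ({s}ᶜ : Set ℝ) := by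
    unfold Dk
    refine ContinuousOn.mul continuousOn_const (ContinuousOn.sub ?_ ?_)
    · refine hG.comp (by fun_prop) ?_
      intro t ht
      have : t ≠ s := ht
      have h0 : 0 < |t - s| := abs_pos.2 (sub_ne_zero.2 this)
      exact lt_of_lt_of_le (mul_pos hc h0) (hch t s)
    · refine hG.comp (by fun_prop) ?_
      intro t ht
      have : t ≠ s := ht
      exact abs_pos.2 (sub_ne_zero.2 this)
  have := hs.aestronglyMeasurable (μ := volume) (MeasurableSet.singleton s).compl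
  rwa [restrict_compl_singleton] at this

theorem pt_near (α μ κ r ρ C0 gx gy h q : ℝ) (hα : 0 ≤ α) (hμ : 0 ≤ μ) (hC : 0 ≤ C0)
    (hr : 0 ≤ r) (hρ : ρ ≤ r) (h1 : r - ρ ≤ C0 * r ^ 3)
    (h2 : |(r - ρ) - κ * r ^ 3 / 24| ≤ C0 * r ^ 4)
    (h3 : |gx - gy - (μ * r - μ * ρ) * h| ≤ (μ * r - μ * ρ) ^ 2 * q) (hh : 0 ≤ h) (hq : 0 ≤ q) :
    |α * (gx - gy) - α * μ * κ / 24 * (r ^ 3 * h)| ≤
      α * μ ^ 2 * C0 ^ 2 * (r ^ 6 * q) + α * μ * C0 * (r ^ 4 * h) := by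
  have e : α * (gx - gy) - α * μ * κ / 24 * (r ^ 3 * h) =
      α * (gx - gy - (μ * r - μ * ρ) * h) + α * μ * h * ((r - ρ) - κ * r ^ 3 / 24) := by ring
  rw [e]
  refine (abs_add_le _ _).trans (add_le_add ?_ ?_)
  · rw [abs_mul, abs_of_nonneg hα]
    have h4 : (μ * r - μ * ρ) ^ 2 ≤ (μ * (C0 * r ^ 3)) ^ 2 := by
      have h5 : 0 ≤ μ * r - μ * ρ := by
        have := mul_le_mul_of_nonneg_left hρ hμ
        linarith
      have h6 : μ * r - μ * ρ ≤ μ * (C0 * r ^ 3) := by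
        rw [← mul_sub]; exact mul_le_mul_of_nonneg_left h1 hμ
      exact pow_le_pow_left₀ h5 h6 2
    calc α * |gx - gy - (μ * r - μ * ρ) * h| ≤ α * ((μ * (C0 * r ^ 3)) ^ 2 * q) :=
          mul_le_mul_of_nonneg_left (h3.trans (mul_le_mul_of_nonneg_right h4 hq)) hα
      _ = α * μ ^ 2 * C0 ^ 2 * (r ^ 6 * q) := by ring
  · rw [abs_mul, abs_of_nonneg (by positivity : 0 ≤ α * μ * h)]
    calc α * μ * h * |(r - ρ) - κ * r ^ 3 / 24| ≤ α * μ * h * (C0 * r ^ 4) :=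
          mul_le_mul_of_nonneg_left h2 (by positivity)
      _ = α * μ * C0 * (r ^ 4 * h) := by ring

theorem straight {γ : ℝ → P} {L : ℝ} (hγ : Crv γ L) {s : ℝ} (hs : L < |s|) (t : ℝ) :
    ‖γ t - γ s‖ = |t - s| ∨ |s| - L ≤ |t - s| := by
  have hL := hγ.pos
  rcases le_or_gt 0 s with h0 | h0
  · rw [abs_of_nonneg h0] at hs ⊢
    rcases le_or_gt L t with h1 | h1
    · left
      rw [hγ.right t h1, hγ.right s hs.le]
      have : γ L + (t - L) • deriv γ L - (γ L + (s - L) • deriv γ L) = (t - s) • deriv γ L := by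
        module
      rw [this, norm_smul, hγ.unit L, mul_one, Real.norm_eq_abs]
    · right
      rw [abs_sub_comm, abs_of_nonneg (by linarith)]
      linarith
  · rw [abs_of_neg h0] at hs ⊢
    rcases le_or_gt t (-L) with h1 | h1
    · left
      rw [hγ.left t h1, hγ.left s (by linarith)]
      have : γ (-L) + (t + L) • deriv γ (-L) - (γ (-L) + (s + L) • deriv γ (-L)) =
        (t - s) • deriv γ (-L) := by
        module
      rw [this, norm_smul, hγ.unit (-L), mul_one, Real.norm_eq_abs]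
    · right
      rw [abs_of_nonneg (by linarith)]
      linarith

theorem ae_ne (s : ℝ) : ∀ᵐ t : ℝ, t ≠ s := by
  have : (volume : Measure ℝ) {s} = 0 := by simp
  rw [ae_iff]
  simpa using this

theorem mu_bd {α k : ℝ} (hk : 0 < k) (h : 4 * k + 1 ≤ α) :
    α / 4 ≤ mu α k ∧ mu α k ≤ α / 2 ∧ mu α k ^ 2 = α ^ 2 / 4 - k ^ 2 := by
  have hα : 0 < α := by linarith
  have h1 : k ^ 2 ≤ α ^ 2 / 16 := by nlinarith
  have h2 : 0 ≤ α ^ 2 / 4 - k ^ 2 := by nlinarith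
  unfold mu
  refine ⟨?_, ?_, Real.sq_sqrt h2⟩
  · apply Real.le_sqrt_of_sq_le
    nlinarith
  · rw [Real.sqrt_le_left (by positivity)]
    nlinarith [sq_nonneg k]

/-- `α³/μ³` is close to `8` -/
theorem cube {α μ k : ℝ} (hk : 0 < k) (hα : 1 ≤ α) (h1 : α / 4 ≤ μ) (h2 : μ ≤ α / 2)
    (h3 : μ ^ 2 = α ^ 2 / 4 - k ^ 2) : |α ^ 3 * μ⁻¹ ^ 3 - 8| ≤ 448 * k ^ 2 / α := by
  have hμ : 0 < μ := by linarith
  set u := α * μ⁻¹ with hu
  have hu3 : α ^ 3 * μ⁻¹ ^ 3 = u ^ 3 := by rw [hu, mul_pow]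
  have hul : 2 ≤ u := by
    rw [hu, ← div_eq_mul_inv, le_div_iff₀ hμ]; linarith
  have huu : u ≤ 4 := by
    rw [hu, ← div_eq_mul_inv, div_le_iff₀ hμ]; linarith
  have hsq : u ^ 2 - 4 = 4 * k ^ 2 * μ⁻¹ ^ 2 := by
    rw [hu, mul_pow]
    have : μ⁻¹ ^ 2 * μ ^ 2 = 1 := by rw [← mul_pow, inv_mul_cancel₀ hμ.ne', one_pow]
    rw [h3] at this
    linear_combination 4 * this
  have hm : μ⁻¹ ≤ 4 / α := by
    rw [inv_le_comm₀ hμ (by positivity)]
    rw [inv_div]; exact h1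
  have hm2 : μ⁻¹ ^ 2 ≤ 16 / α := by
    have h4 : 0 < μ⁻¹ := by positivity
    have h5 : μ⁻¹ ^ 2 ≤ (4 / α) ^ 2 := pow_le_pow_left₀ h4.le hm 2
    refine h5.trans ?_
    rw [div_pow, div_le_div_iff₀ (by positivity) (by positivity)]
    nlinarith
  rw [hu3, abs_of_nonneg (by nlinarith [sq_nonneg (u - 2), mul_nonneg (sub_nonneg.2 hul) (sub_nonneg.2 hul)])]
  have h6 : u - 2 ≤ k ^ 2 * μ⁻¹ ^ 2 := by nlinarith
  have h7 : u ^ 3 - 8 = (u - 2) * (u ^ 2 + 2 * u + 4) := by ring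
  rw [h7]
  have h8 : u ^ 2 + 2 * u + 4 ≤ 28 := by nlinarith
  calc (u - 2) * (u ^ 2 + 2 * u + 4) ≤ (k ^ 2 * μ⁻¹ ^ 2) * 28 := by
        apply mul_le_mul h6 h8 (by positivity) (by positivity)
    _ ≤ (k ^ 2 * (16 / α)) * 28 := by gcongr
    _ = 448 * k ^ 2 / α := by ring

/-- the data of the piece `S_G` -/
structure GD (H Q : ℝ → ℝ) : Prop where
  H0 : ∀ x, 0 < x → 0 ≤ H x
  Q0 : ∀ x, 0 < x → 0 ≤ Q x
  Hm : ∀ x y, 0 < x → x ≤ y → H y ≤ H x
  Qm : ∀ x y, 0 < x → x ≤ y → Q y ≤ Q x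
  G1 : ∀ x y, 0 < x → x ≤ y → Gk 1 x - Gk 1 y ≤ (y - x) * H x
  G2 : ∀ x y, 0 < x → x ≤ y → |Gk 1 x - Gk 1 y - (y - x) * H y| ≤ (y - x) ^ 2 * Q x
  Hi : ∀ j : ℕ, 1 ≤ j → IntegrableOn (fun x => x ^ j * H x) (Ioi 0)
  Qi : ∀ j : ℕ, 2 ≤ j → IntegrableOn (fun x => x ^ j * Q x) (Ioi 0)
  H3 : ∫ x in Ioi (0 : ℝ), x ^ 3 * H x = 3 / 4

theorem near (h3 : S_G) {H Q : ℝ → ℝ} (hd : GD H Q) {γ : ℝ → P} {L c C0 : ℝ} (hγ : Crv γ L)
    (hc : 0 < c) (hch : ∀ s t, c * |s - t| ≤ ‖γ s - γ t‖) (hC : 0 < C0)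
    (t1 : ∀ s t, ‖γ s - γ t‖ ≤ |s - t|)
    (t2 : ∀ s t, |s - t| - ‖γ s - γ t‖ ≤ C0 * |s - t| ^ 3)
    (t3 : ∀ s t, |(|s - t| - ‖γ s - γ t‖) - kap2 γ t * |s - t| ^ 3 / 24| ≤ C0 * |s - t| ^ 4)
    {α k : ℝ} (hα : 0 ≤ α) (hμ : 0 < mu α k) (s : ℝ) :
    Integrable (fun t => Dk α k γ t s) ∧
    |(∫ t, Dk α k γ t s) - α * (mu α k)⁻¹ ^ 3 * kap2 γ s / 16| ≤
      α * (mu α k) ^ 2 * C0 ^ 2 *
          (2 * ((mu α k * c)⁻¹ ^ 7 * ∫ x in Ioi (0:ℝ), x ^ 6 * Q x)) +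
        α * mu α k * C0 * (2 * ((mu α k)⁻¹ ^ 5 * ∫ x in Ioi (0:ℝ), x ^ 4 * H x)) := by
  have hmeas := Dk_meas h3 hγ hc hch α k s hμ
  set μ := mu α k with hμd
  have hμc : 0 < μ * c := mul_pos hμ hc
  obtain ⟨iQ, vQ⟩ := line Q 6 hμc s (hd.Qi 6 (by norm_num))
  obtain ⟨iH, vH⟩ := line H 4 hμ s (hd.Hi 4 (by norm_num))
  obtain ⟨iM, vM⟩ := line H 3 hμ s (hd.Hi 3 (by norm_num))
  have hpt : ∀ᵐ t : ℝ, ‖Dk α k γ t s - α * μ * kap2 γ s / 24 * (|t - s| ^ 3 * H (μ * |t - s|))‖ ≤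
      α * μ ^ 2 * C0 ^ 2 * (|t - s| ^ 6 * Q (μ * c * |t - s|)) +
        α * μ * C0 * (|t - s| ^ 4 * H (μ * |t - s|)) := by
    filter_upwards [ae_ne s] with t ht
    have hr : 0 < |t - s| := abs_pos.2 (sub_ne_zero.2 ht)
    have hρ : 0 < ‖γ t - γ s‖ := lt_of_lt_of_le (mul_pos hc hr) (hch t s)
    have hx : 0 < μ * ‖γ t - γ s‖ := mul_pos hμ hρ
    have hxy : μ * ‖γ t - γ s‖ ≤ μ * |t - s| := mul_le_mul_of_nonneg_left (t1 t s) hμ.le
    have hq : Q (μ * ‖γ t - γ s‖) ≤ Q (μ * c * |t - s|) := by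
      apply hd.Qm _ _ (by positivity)
      rw [mul_assoc]
      exact mul_le_mul_of_nonneg_left (hch t s) hμ.le
    have hg := hd.G2 _ _ hx hxy
    have hg2 : |Gk 1 (μ * ‖γ t - γ s‖) - Gk 1 (μ * |t - s|) -
        (μ * |t - s| - μ * ‖γ t - γ s‖) * H (μ * |t - s|)| ≤
        (μ * |t - s| - μ * ‖γ t - γ s‖) ^ 2 * Q (μ * c * |t - s|) :=
      hg.trans (mul_le_mul_of_nonneg_left hq (sq_nonneg _))
    rw [Real.norm_eq_abs, Dk, ← hμd, (h3.1 μ _ hμ hρ).2, (h3.1 μ _ hμ hr).2]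
    exact pt_near α μ (kap2 γ s) |t - s| ‖γ t - γ s‖ C0 _ _ _ _ hα hμ.le hC.le hr.le (t1 t s)
      (t2 t s) (t3 t s) hg2 (hd.H0 _ (by positivity)) (hd.Q0 _ (by positivity))
  have iB : Integrable (fun t : ℝ => α * μ ^ 2 * C0 ^ 2 * (|t - s| ^ 6 * Q (μ * c * |t - s|)) +
        α * μ * C0 * (|t - s| ^ 4 * H (μ * |t - s|))) :=
    (iQ.const_mul _).add (iH.const_mul _)
  have iMm : Integrable (fun t : ℝ => α * μ * kap2 γ s / 24 * (|t - s| ^ 3 * H (μ * |t - s|))) :=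
    iM.const_mul _
  have iE : Integrable (fun t : ℝ => Dk α k γ t s -
      α * μ * kap2 γ s / 24 * (|t - s| ^ 3 * H (μ * |t - s|))) :=
    iB.mono' (hmeas.sub iMm.aestronglyMeasurable) hpt
  have iD : Integrable (fun t => Dk α k γ t s) := by
    have := iE.add iMm
    refine this.congr (Eventually.of_forall fun t => ?_)
    simp
  refine ⟨iD, ?_⟩
  have hmm : μ * μ⁻¹ = 1 := mul_inv_cancel₀ hμ.ne'
  have e1 : ∫ t, α * μ * kap2 γ s / 24 * (|t - s| ^ 3 * H (μ * |t - s|)) =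
      α * μ⁻¹ ^ 3 * kap2 γ s / 16 := by
    rw [integral_const_mul, vM, hd.H3]
    linear_combination (α * kap2 γ s * μ⁻¹ ^ 3 / 16) * hmm
  rw [← e1, ← integral_sub iD iMm]
  have h5 := norm_integral_le_of_norm_le iB hpt
  rw [Real.norm_eq_abs] at h5
  refine h5.trans (le_of_eq ?_)
  rw [integral_add (iQ.const_mul _) (iH.const_mul _), integral_const_mul, integral_const_mul, vQ,
    vH]

theorem far (h3 : S_G) {H Q : ℝ → ℝ} (hd : GD H Q) {γ : ℝ → P} {L c C0 : ℝ} (hγ : Crv γ L)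
    (hc : 0 < c) (hch : ∀ s t, c * |s - t| ≤ ‖γ s - γ t‖) (hC : 0 < C0)
    (t1 : ∀ s t, ‖γ s - γ t‖ ≤ |s - t|)
    (t2 : ∀ s t, |s - t| - ‖γ s - γ t‖ ≤ C0 * |s - t| ^ 3)
    {α k : ℝ} (hα : 0 ≤ α) (hμ : 0 < mu α k) (s : ℝ) (hs : L < |s|) :
    |∫ t, Dk α k γ t s| ≤
      α * mu α k * C0 * (|s| - L)⁻¹ ^ 2 *
        (2 * ((mu α k * c)⁻¹ ^ 6 * ∫ x in Ioi (0:ℝ), x ^ 5 * H x)) := by
  set μ := mu α k with hμd
  have hμc : 0 < μ * c := mul_pos hμ hc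
  have hdp : 0 < |s| - L := by linarith
  obtain ⟨iH, vH⟩ := line H 5 hμc s (hd.Hi 5 (by norm_num))
  have hpt : ∀ᵐ t : ℝ, ‖Dk α k γ t s‖ ≤
      α * μ * C0 * (|s| - L)⁻¹ ^ 2 * (|t - s| ^ 5 * H (μ * c * |t - s|)) := by
    filter_upwards [ae_ne s] with t ht
    have hr : 0 < |t - s| := abs_pos.2 (sub_ne_zero.2 ht)
    have hρ : 0 < ‖γ t - γ s‖ := lt_of_lt_of_le (mul_pos hc hr) (hch t s)
    have hx : 0 < μ * ‖γ t - γ s‖ := mul_pos hμ hρ
    have hxy : μ * ‖γ t - γ s‖ ≤ μ * |t - s| := mul_le_mul_of_nonneg_left (t1 t s) hμ.le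
    have hH0 : 0 ≤ H (μ * c * |t - s|) := hd.H0 _ (by positivity)
    have hrhs : 0 ≤ α * μ * C0 * (|s| - L)⁻¹ ^ 2 * (|t - s| ^ 5 * H (μ * c * |t - s|)) := by
      positivity
    rw [Real.norm_eq_abs, Dk, ← hμd]
    rcases straight hγ hs t with h0 | h0
    · rw [h0]; simpa using hrhs
    · rw [(h3.1 μ _ hμ hρ).2, (h3.1 μ _ hμ hr).2]
      have g0 := h3.2.2.1 _ _ hx hxy
      have g1 := hd.G1 _ _ hx hxy
      have hHm : H (μ * ‖γ t - γ s‖) ≤ H (μ * c * |t - s|) := by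
        apply hd.Hm _ _ (by positivity)
        rw [mul_assoc]
        exact mul_le_mul_of_nonneg_left (hch t s) hμ.le
      have g2 : Gk 1 (μ * ‖γ t - γ s‖) - Gk 1 (μ * |t - s|) ≤
          (μ * (C0 * |t - s| ^ 3)) * H (μ * c * |t - s|) := by
        refine g1.trans (mul_le_mul ?_ hHm (hd.H0 _ hx) (by positivity))
        rw [← mul_sub]
        exact mul_le_mul_of_nonneg_left (t2 t s) hμ.le
      have g3 : 1 ≤ ((|s| - L)⁻¹ * |t - s|) ^ 2 := by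
        apply one_le_pow₀
        rw [← div_eq_inv_mul, le_div_iff₀ hdp]
        linarith
      rw [abs_of_nonneg (mul_nonneg hα (by linarith))]
      calc α * (Gk 1 (μ * ‖γ t - γ s‖) - Gk 1 (μ * |t - s|)) ≤
            α * ((μ * (C0 * |t - s| ^ 3)) * H (μ * c * |t - s|)) :=
            mul_le_mul_of_nonneg_left g2 hα
        _ = α * ((μ * (C0 * |t - s| ^ 3)) * H (μ * c * |t - s|)) * 1 := by ring
        _ ≤ α * ((μ * (C0 * |t - s| ^ 3)) * H (μ * c * |t - s|)) *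
            ((|s| - L)⁻¹ * |t - s|) ^ 2 :=
            mul_le_mul_of_nonneg_left g3 (by positivity)
        _ = _ := by ring
  have h5 := norm_integral_le_of_norm_le (iH.const_mul _) hpt
  rw [Real.norm_eq_abs] at h5
  refine h5.trans (le_of_eq ?_)
  rw [integral_const_mul, vH]

theorem t_D2 (h : S_CHORD) (h2 : S_TAY) (h3 : S_G) : S_D2 := by
  intro γ L k hγ hne hk
  obtain ⟨c, hc, _, hch⟩ := h γ L hγ hne
  obtain ⟨C0, hC, t1, t2, t3, hkc, hk0⟩ := h2 γ L hγ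
  obtain ⟨H, Q, hHme, hQme, hHQ0, hHQm, hG1, hG2, hHi, hQi, hH3⟩ := h3.2.2.2.2.2
  have hd : GD H Q := ⟨fun x hx => (hHQ0 x hx).1, fun x hx => (hHQ0 x hx).2,
    fun x y hx hxy => (hHQm x y hx hxy).1, fun x y hx hxy => (hHQm x y hx hxy).2, hG1, hG2, hHi,
    hQi, hH3⟩
  have hL := hγ.pos
  obtain ⟨B, hB⟩ := (isCompact_Icc (a := -L) (b := L)).exists_bound_of_continuousOn
    hkc.continuousOn
  have hB0 : 0 ≤ B := (norm_nonneg _).trans (hB 0 ⟨by linarith, hL.le⟩)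
  have hBB : ∀ s, |kap2 γ s| ≤ B := by
    intro s
    rcases le_or_gt |s| L with h0 | h0
    · exact hB s (abs_le.1 h0)
    · rw [hk0 s h0]; simpa using hB0
  set IQ := ∫ x in Ioi (0:ℝ), x ^ 6 * Q x with hIQ
  set IH := ∫ x in Ioi (0:ℝ), x ^ 4 * H x with hIH
  set IF := ∫ x in Ioi (0:ℝ), x ^ 5 * H x with hIF
  have pIQ : 0 ≤ IQ := setIntegral_nonneg measurableSet_Ioi fun x hx =>
    mul_nonneg (pow_nonneg (le_of_lt hx) _) (hd.Q0 x hx)
  have pIH : 0 ≤ IH := setIntegral_nonneg measurableSet_Ioi fun x hx =>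
    mul_nonneg (pow_nonneg (le_of_lt hx) _) (hd.H0 x hx)
  have pIF : 0 ≤ IF := setIntegral_nonneg measurableSet_Ioi fun x hx =>
    mul_nonneg (pow_nonneg (le_of_lt hx) _) (hd.H0 x hx)
  set E1 := 1024 * (C0 ^ 2 * c⁻¹ ^ 7 * IQ) + 256 * (C0 * IH) + 14 * k ^ 2 * B with hE1
  set E2 := 8192 * (C0 * c⁻¹ ^ 6 * IF) with hE2
  have pE1 : 0 ≤ E1 := by positivity
  have pE2 : 0 ≤ E2 := by positivity
  set M := E1 * (1 + (2 * L + 1) ^ 2) + E2 with hM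
  have pM : 0 ≤ M := by positivity
  refine ⟨4 * k + 1, M * Real.pi + 1, by linarith, by positivity, ?_⟩
  intro α hα
  have hα1 : 1 ≤ α := by linarith
  have hα0 : 0 < α := by linarith
  obtain ⟨m1, m2, m3⟩ := mu_bd hk hα
  have hμ : 0 < mu α k := by linarith
  set μ := mu α k with hμd
  have hmm : μ * μ⁻¹ = 1 := mul_inv_cancel₀ hμ.ne'
  have hmp : 0 < μ⁻¹ := inv_pos.2 hμ
  have hm : μ⁻¹ ≤ 4 / α := by
    rw [inv_le_comm₀ hμ (by positivity), inv_div]; exact m1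
  have ham : α * μ⁻¹ ≤ 4 := by
    have := mul_le_mul_of_nonneg_left hm hα0.le
    rwa [mul_div_cancel₀ _ hα0.ne'] at this
  have ham3 : (α * μ⁻¹) ^ 3 ≤ 64 := by
    have := pow_le_pow_left₀ (by positivity) ham 3
    linarith
  have hm2 : μ⁻¹ ^ 2 ≤ 16 / α := by
    have h5 : μ⁻¹ ^ 2 ≤ (4 / α) ^ 2 := pow_le_pow_left₀ hmp.le hm 2
    refine h5.trans ?_
    rw [div_pow, div_le_div_iff₀ (by positivity) (by positivity)]
    nlinarith
  have b4 : α ^ 3 * μ⁻¹ ^ 4 ≤ 256 / α := by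
    calc α ^ 3 * μ⁻¹ ^ 4 = (α * μ⁻¹) ^ 3 * μ⁻¹ := by ring
      _ ≤ 64 * (4 / α) := mul_le_mul ham3 hm hmp.le (by norm_num)
      _ = 256 / α := by ring
  have b5 : α ^ 3 * μ⁻¹ ^ 5 ≤ 1024 / α := by
    calc α ^ 3 * μ⁻¹ ^ 5 = (α * μ⁻¹) ^ 3 * μ⁻¹ ^ 2 := by ring
      _ ≤ 64 * (16 / α) := mul_le_mul ham3 hm2 (by positivity) (by norm_num)
      _ = 1024 / α := by ring
  have hcube := cube hk hα1 m1 m2 m3
  -- the pointwise bound
  have key : ∀ s, |α ^ 2 / 2 * (∫ t, Dk α k γ t s) - kap2 γ s / 4| ≤ M / α * (1 + s ^ 2)⁻¹ := by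
    intro s
    have hs1 : 0 < 1 + s ^ 2 := by positivity
    rcases le_or_gt |s| (2 * L + 1) with hs | hs
    · have hn := (near h3 hd hγ hc hch hC t1 t2 t3 hα0.le hμ s).2
      rw [← hμd, ← hIQ, ← hIH] at hn
      have e : α ^ 2 / 2 * (∫ t, Dk α k γ t s) - kap2 γ s / 4 =
          α ^ 2 / 2 * ((∫ t, Dk α k γ t s) - α * μ⁻¹ ^ 3 * kap2 γ s / 16) +
            kap2 γ s / 32 * (α ^ 3 * μ⁻¹ ^ 3 - 8) := by ring
      have h6 : |α ^ 2 / 2 * (∫ t, Dk α k γ t s) - kap2 γ s / 4| ≤ E1 / α := by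
        rw [e]
        refine (abs_add_le _ _).trans ?_
        rw [abs_mul, abs_mul, abs_of_nonneg (by positivity : 0 ≤ α ^ 2 / 2)]
        have h7 : α ^ 2 / 2 * |(∫ t, Dk α k γ t s) - α * μ⁻¹ ^ 3 * kap2 γ s / 16| ≤
            1024 / α * (C0 ^ 2 * c⁻¹ ^ 7 * IQ) + 256 / α * (C0 * IH) := by
          refine (mul_le_mul_of_nonneg_left hn (by positivity)).trans ?_
          have e2 : α ^ 2 / 2 * (α * μ ^ 2 * C0 ^ 2 * (2 * ((μ * c)⁻¹ ^ 7 * IQ)) +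
              α * μ * C0 * (2 * (μ⁻¹ ^ 5 * IH))) =
              (α ^ 3 * μ⁻¹ ^ 5) * (C0 ^ 2 * c⁻¹ ^ 7 * IQ) + (α ^ 3 * μ⁻¹ ^ 4) * (C0 * IH) := by
            rw [mul_inv, mul_pow]
            have hmm2 : μ ^ 2 * μ⁻¹ ^ 2 = 1 := by rw [← mul_pow, hmm, one_pow]
            linear_combination (α ^ 3 * C0 ^ 2 * μ⁻¹ ^ 5 * c⁻¹ ^ 7 * IQ) * hmm2 +
              (α ^ 3 * C0 * μ⁻¹ ^ 4 * IH) * hmm
          rw [e2]
          exact add_le_add (mul_le_mul_of_nonneg_right b5 (by positivity))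
            (mul_le_mul_of_nonneg_right b4 (by positivity))
        have h8 : |kap2 γ s / 32| * |α ^ 3 * μ⁻¹ ^ 3 - 8| ≤ B / 32 * (448 * k ^ 2 / α) := by
          refine mul_le_mul ?_ hcube (abs_nonneg _) (by positivity)
          rw [abs_div, abs_of_pos (by norm_num : (0:ℝ) < 32)]
          exact div_le_div_of_nonneg_right (hBB s) (by norm_num)
        refine (add_le_add h7 h8).trans (le_of_eq ?_)
        rw [hE1]; ring
      refine h6.trans ?_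
      have h9 : s ^ 2 ≤ (2 * L + 1) ^ 2 := by
        rw [← sq_abs s]
        exact pow_le_pow_left₀ (abs_nonneg _) hs 2
      rw [← div_eq_mul_inv, le_div_iff₀ hs1, div_mul_eq_mul_div]
      apply div_le_div_of_nonneg_right _ hα0.le
      calc E1 * (1 + s ^ 2) ≤ E1 * (1 + (2 * L + 1) ^ 2) :=
            mul_le_mul_of_nonneg_left (by linarith) pE1
        _ ≤ M := by rw [hM]; linarith
    · have hsL : L < |s| := by linarith
      have hf := far h3 hd hγ hc hch hC t1 t2 hα0.le hμ s hsL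
      rw [← hμd, ← hIF] at hf
      rw [hk0 s hsL, zero_div, sub_zero, abs_mul, abs_of_nonneg (by positivity : 0 ≤ α ^ 2 / 2)]
      have h10 : α ^ 2 / 2 * |∫ t, Dk α k γ t s| ≤
          (1024 / α) * (C0 * c⁻¹ ^ 6 * IF) * (|s| - L)⁻¹ ^ 2 := by
        refine (mul_le_mul_of_nonneg_left hf (by positivity)).trans ?_
        have e2 : α ^ 2 / 2 * (α * μ * C0 * (|s| - L)⁻¹ ^ 2 * (2 * ((μ * c)⁻¹ ^ 6 * IF))) =
            (α ^ 3 * μ⁻¹ ^ 5) * (C0 * c⁻¹ ^ 6 * IF) * (|s| - L)⁻¹ ^ 2 := by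
          rw [mul_inv, mul_pow]
          linear_combination (α ^ 3 * C0 * (|s| - L)⁻¹ ^ 2 * μ⁻¹ ^ 5 * c⁻¹ ^ 6 * IF) * hmm
        rw [e2]
        exact mul_le_mul_of_nonneg_right (mul_le_mul_of_nonneg_right b5 (by positivity))
          (by positivity)
      refine h10.trans ?_
      have h11 : (|s| - L)⁻¹ ^ 2 ≤ 8 * (1 + s ^ 2)⁻¹ := by
        have hd1 : 0 < |s| - L := by linarith
        rw [inv_pow, ← div_eq_mul_inv, inv_le_comm₀ (by positivity) (by positivity), inv_div,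
          div_le_iff₀ (by norm_num)]
        rw [← sq_abs s]
        have h12 : |s| / 2 ≤ |s| - L := by linarith
        have h13 : (|s| / 2) ^ 2 ≤ (|s| - L) ^ 2 := pow_le_pow_left₀ (by positivity) h12 2
        have h14 : 1 ≤ |s| ^ 2 := one_le_pow₀ (by linarith)
        nlinarith
      calc (1024 / α) * (C0 * c⁻¹ ^ 6 * IF) * (|s| - L)⁻¹ ^ 2 ≤
            (1024 / α) * (C0 * c⁻¹ ^ 6 * IF) * (8 * (1 + s ^ 2)⁻¹) :=
            mul_le_mul_of_nonneg_left h11 (by positivity)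
        _ = E2 / α * (1 + s ^ 2)⁻¹ := by rw [hE2]; ring
        _ ≤ M / α * (1 + s ^ 2)⁻¹ := by
            apply mul_le_mul_of_nonneg_right _ (by positivity)
            apply div_le_div_of_nonneg_right _ hα0.le
            rw [hM]
            have : 0 ≤ E1 * (1 + (2 * L + 1) ^ 2) := by positivity
            linarith
  have hint : Integrable (fun s : ℝ => M / α * (1 + s ^ 2)⁻¹) :=
    integrable_inv_one_add_sq.const_mul _
  calc ∫ s, |α ^ 2 / 2 * (∫ t, Dk α k γ t s) - kap2 γ s / 4| ≤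
        ∫ s : ℝ, M / α * (1 + s ^ 2)⁻¹ :=
        integral_mono_of_nonneg (Eventually.of_forall fun _ => abs_nonneg _) hint
          (Eventually.of_forall key)
    _ = M / α * Real.pi := by rw [integral_const_mul, integral_univ_inv_one_add_sq]
    _ ≤ (M * Real.pi + 1) / α := by
        rw [div_mul_eq_mul_div]
        apply div_le_div_of_nonneg_right _ hα0.le
        linarith

end

end Pool.Agent.E8helper25.LC
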